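import Pool.Agent.P8H61.FG.SawA

set_option autoImplicit false

namespace Pool.Agent.P8H61.FG

open Finset ArithmeticFunction
open Pool.Agent.P8H15.FG
open Pool.Agent.H560R3.GB (sing C₂)

lemma summ_cmp (k : ℕ) (h : Summable (fun n : ℕ => |bb k n| * (n : ℝ) ^ (1 / 4 : ℝ))) (c : ℕ → ℝ) (D : ℝ)
    (hc : ∀ n : ℕ, 1 ≤ n → |c n| ≤ D * (n : ℝ) ^ (1 / 4 : ℝ)) : Summable (fun n : ℕ => bb k n * c n) := by
  apply Summable.of_norm_bounded (h.mul_left D)
  intro n
  rw [Real.norm_eq_abs, abs_mul]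
  rcases Nat.eq_zero_or_pos n with h0 | h0
  · rw [h0, bb_zero]; simp
  · calc |bb k n| * |c n| ≤ |bb k n| * (D * (n : ℝ) ^ (1 / 4 : ℝ)) :=
        mul_le_mul_of_nonneg_left (hc n h0) (abs_nonneg _)
      _ = D * (|bb k n| * (n : ℝ) ^ (1 / 4 : ℝ)) := by ring

lemma one_le_quarter (n : ℕ) (hn : 1 ≤ n) : 1 ≤ (n : ℝ) ^ (1 / 4 : ℝ) :=
  Real.one_le_rpow (by exact_mod_cast hn) (by norm_num)

/-- the main term -/
lemma tsum_MU (hv : S_BV01) (hl : S_BVL) (X k : ℕ) (hk : 1 ≤ k) (he : Even k) (hX : 1 ≤ X)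
    (h : Summable (fun n : ℕ => |bb k n| * (n : ℝ) ^ (1 / 4 : ℝ))) :
    Summable (fun n : ℕ => bb k n * (n * MU ((X : ℝ) / k / n))) ∧
    2 * (k * (sing k * ∑' n : ℕ, bb k n * (n * MU ((X : ℝ) / k / n)))) =
      (X : ℝ) ^ 2 / Nat.totient k - X * (Real.log (X / k) + CQ k - 1) := by
  have hk0 : (0 : ℝ) < k := by exact_mod_cast hk
  have hX0 : (0 : ℝ) < X := by exact_mod_cast hX
  have hphi : (0 : ℝ) < Nat.totient k := by exact_mod_cast Nat.totient_pos.mpr hk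
  set J : ℝ := (X : ℝ) / k with hJ
  have hJ0 : 0 < J := div_pos hX0 hk0
  have h0 : Summable (fun n : ℕ => bb k n) := by
    have := summ_cmp k h (fun _ => 1) 1 (fun n hn => by
      rw [abs_one, one_mul]; exact one_le_quarter n hn)
    simpa using this
  have h1 : Summable (fun n : ℕ => bb k n / n) := by
    have := summ_cmp k h (fun n => 1 / (n : ℝ)) 1 (fun n hn => by
      have hn0 : (1 : ℝ) ≤ n := by exact_mod_cast hn
      rw [abs_of_nonneg (by positivity), one_mul]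
      exact le_trans (by rw [div_le_one (by linarith)]; exact hn0) (one_le_quarter n hn))
    refine this.congr (fun n => ?_)
    ring
  have hL : Summable (fun n : ℕ => bb k n * Real.log n) := by
    apply summ_cmp k h (fun n => Real.log n) 4
    intro n hn
    have hn0 : (1 : ℝ) ≤ n := by exact_mod_cast hn
    rw [abs_of_nonneg (Real.log_nonneg hn0)]
    have := Real.log_le_rpow_div (show (0 : ℝ) ≤ n by linarith) (show (0 : ℝ) < 1 / 4 by norm_num)
    linarith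
  have hf : ∀ n : ℕ, bb k n * (n * MU (J / n)) =
      (Real.pi ^ 2 / 12 * J ^ 2) * (bb k n / n) -
      (J / 2 * (Real.log J + Real.eulerMascheroniConstant + Real.log (2 * Real.pi) - 1)) * bb k n
      + (J / 2) * (bb k n * Real.log n) := by
    intro n
    rcases Nat.eq_zero_or_pos n with hn | hn
    · rw [hn, bb_zero]; simp
    · rw [MU_eq J n hJ0 (by exact_mod_cast hn)]
      ring
  have hs := ((h1.hasSum.mul_left (Real.pi ^ 2 / 12 * J ^ 2)).sub
    (h0.hasSum.mul_left (J / 2 * (Real.log J + Real.eulerMascheroniConstant + Real.log (2 * Real.pi) - 1)))).add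
    (hL.hasSum.mul_left (J / 2))
  have hs2 := hs
  rw [← funext hf] at hs2
  refine ⟨hs2.summable, ?_⟩
  rw [hs2.tsum_eq]
  obtain ⟨hv0, hv1⟩ := hv k hk he
  have hvl := hl k hk he
  have hgoal : 2 * (k * (sing k * (Real.pi ^ 2 / 12 * J ^ 2 * ∑' n : ℕ, bb k n / n -
      J / 2 * (Real.log J + Real.eulerMascheroniConstant + Real.log (2 * Real.pi) - 1) * ∑' n : ℕ, bb k n +
      J / 2 * ∑' n : ℕ, bb k n * Real.log n))) =
      k * J ^ 2 * (sing k * (Real.pi ^ 2 / 6 * ∑' n : ℕ, bb k n / n)) -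
      k * J * (Real.log J + Real.eulerMascheroniConstant + Real.log (2 * Real.pi) - 1) *
        (sing k * ∑' n : ℕ, bb k n) +
      k * J * (sing k * ∑' n : ℕ, bb k n * Real.log n) := by ring
  rw [hgoal, hv0, hv1, hvl]
  have hkJ : (k : ℝ) * J = X := by rw [hJ]; field_simp
  have h2 : (k : ℝ) * J ^ 2 * (k / Nat.totient k) = (X : ℝ) ^ 2 / Nat.totient k := by
    rw [← hkJ]; ring
  rw [h2, hkJ, CQ]
  ring

lemma fac_nonneg {p : ℕ} (hp : 2 < p) : (0 : ℝ) ≤ 1 - 1 / ((p : ℝ) - 1) ^ 2 := by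
  have h3 : (3 : ℝ) ≤ p := by exact_mod_cast hp
  have h4 : (1 : ℝ) ≤ ((p : ℝ) - 1) ^ 2 := by nlinarith
  have h5 : 1 / ((p : ℝ) - 1) ^ 2 ≤ 1 := by
    rw [div_le_one (by linarith)]; exact h4
  linarith

lemma prod_nonneg' (z : ℕ) : (0 : ℝ) ≤ ∏ p ∈ (Icc 3 z).filter Nat.Prime, (1 - 1 / ((p : ℝ) - 1) ^ 2) := by
  apply prod_nonneg
  intro p hp
  rw [mem_filter, mem_Icc] at hp
  exact fac_nonneg (by omega)

lemma C2_nonneg : 0 ≤ C₂ := Real.iInf_nonneg prod_nonneg'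

lemma C2_le_one : C₂ ≤ 1 := by
  have h : C₂ ≤ ∏ p ∈ (Icc 3 0).filter Nat.Prime, (1 - 1 / ((p : ℝ) - 1) ^ 2) :=
    ciInf_le ⟨0, by rintro x ⟨z, rfl⟩; exact prod_nonneg' z⟩ 0
  simpa using h

lemma sing_nonneg (k : ℕ) : 0 ≤ sing k := by
  rw [sing]
  apply mul_nonneg (mul_nonneg (by norm_num) C2_nonneg)
  apply prod_nonneg
  intro p hp
  rw [mem_filter] at hp
  have h3 : (3 : ℝ) ≤ p := by exact_mod_cast hp.2
  exact div_nonneg (by linarith) (by linarith)

lemma fac_le {p : ℕ} (hp : p.Prime) (h2 : 2 < p) :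
    ((p : ℝ) - 1) / ((p : ℝ) - 2) ≤ (if p = 3 then 2 else 1) * (1 + 1 / Real.sqrt p) := by
  have h3 : (3 : ℝ) ≤ p := by exact_mod_cast h2
  have hs : 0 < Real.sqrt p := Real.sqrt_pos.mpr (by linarith)
  split_ifs with h
  · rw [h]
    have : (0 : ℝ) ≤ 1 / Real.sqrt ((3 : ℕ) : ℝ) := by positivity
    norm_num at this ⊢
  · have h5 : (5 : ℝ) ≤ p := by
      have : p ≠ 4 := by rintro rfl; revert hp; decide
      have : 5 ≤ p := by omega
      exact_mod_cast this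
    have hsq : Real.sqrt p ^ 2 = p := Real.sq_sqrt (by linarith)
    have h6 : Real.sqrt p ≤ (p : ℝ) - 2 := by
      rw [Real.sqrt_le_left (by linarith)]
      nlinarith
    have h7 : ((p : ℝ) - 1) / ((p : ℝ) - 2) = 1 + 1 / ((p : ℝ) - 2) := by
      have : (p : ℝ) - 2 ≠ 0 := by linarith
      rw [eq_comm, eq_div_iff this]
      field_simp
      ring
    rw [h7, one_mul]
    have := one_div_le_one_div_of_le hs h6
    linarith

lemma sing_le (k : ℕ) : sing k ≤ 4 * ∏ p ∈ k.primeFactors, (1 + 1 / Real.sqrt p) := by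
  rw [sing]
  have h1 : ∏ p ∈ k.primeFactors.filter (fun p => 2 < p), ((p : ℝ) - 1) / ((p : ℝ) - 2) ≤
      ∏ p ∈ k.primeFactors.filter (fun p => 2 < p), ((if p = 3 then 2 else 1) * (1 + 1 / Real.sqrt p)) := by
    apply prod_le_prod
    · intro p hp
      rw [mem_filter] at hp
      have h3 : (3 : ℝ) ≤ p := by exact_mod_cast hp.2
      exact div_nonneg (by linarith) (by linarith)
    · intro p hp
      rw [mem_filter] at hp
      exact fac_le (Nat.prime_of_mem_primeFactors hp.1) hp.2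
  have h2 : ∏ p ∈ k.primeFactors.filter (fun p => 2 < p), (if p = 3 then (2 : ℝ) else 1) ≤ 2 := by
    rw [prod_ite_eq']
    split_ifs <;> norm_num
  have h3 : ∏ p ∈ k.primeFactors.filter (fun p => 2 < p), (1 + 1 / Real.sqrt p) ≤
      ∏ p ∈ k.primeFactors, (1 + 1 / Real.sqrt p) := by
    apply prod_le_prod_of_subset_of_one_le (filter_subset _ _)
    · intro p _
      positivity
    · intro p _ _
      have : 0 ≤ 1 / Real.sqrt p := by positivity
      linarith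
  have h4 : 0 ≤ ∏ p ∈ k.primeFactors.filter (fun p => 2 < p), (1 + 1 / Real.sqrt p) :=
    prod_nonneg fun p _ => by positivity
  have h5 : 0 ≤ ∏ p ∈ k.primeFactors.filter (fun p => 2 < p), ((p : ℝ) - 1) / ((p : ℝ) - 2) := by
    apply prod_nonneg
    intro p hp
    rw [mem_filter] at hp
    have h3 : (3 : ℝ) ≤ p := by exact_mod_cast hp.2
    exact div_nonneg (by linarith) (by linarith)
  rw [prod_mul_distrib] at h1
  calc 2 * C₂ * ∏ p ∈ k.primeFactors.filter (fun p => 2 < p), ((p : ℝ) - 1) / ((p : ℝ) - 2)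
      ≤ 2 * 1 * ∏ p ∈ k.primeFactors.filter (fun p => 2 < p), ((p : ℝ) - 1) / ((p : ℝ) - 2) := by
        apply mul_le_mul_of_nonneg_right _ h5
        linarith [C2_le_one]
    _ ≤ 2 * 1 * (2 * ∏ p ∈ k.primeFactors, (1 + 1 / Real.sqrt p)) := by
        apply mul_le_mul_of_nonneg_left _ (by norm_num)
        exact le_trans h1 (mul_le_mul h2 h3 h4 (by norm_num))
    _ = _ := by ring

lemma prod34 (k : ℕ) : ∏ p ∈ k.primeFactors, (1 + (p : ℝ) ^ (-(3 / 4) : ℝ)) ≤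
    ∏ p ∈ k.primeFactors, (1 + 1 / Real.sqrt p) := by
  apply prod_le_prod
  · intro p _
    positivity
  · intro p hp
    have hp1 : (1 : ℝ) ≤ p := by exact_mod_cast (Nat.prime_of_mem_primeFactors hp).one_le
    have : (p : ℝ) ^ (-(3 / 4) : ℝ) ≤ (p : ℝ) ^ (-(1 / 2) : ℝ) :=
      Real.rpow_le_rpow_of_exponent_le hp1 (by norm_num)
    rw [Real.sqrt_eq_rpow, one_div, ← Real.rpow_neg (by linarith)]
    linarith

theorem saw : S_EXP → S_BINV → S_UUU → S_BABS → S_BV01 → S_BVL → S_SAW := by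
  intro hexp hbinv huuu hbabs hv hl
  obtain ⟨C, hC, hU⟩ := huuu
  obtain ⟨C', hC', hB⟩ := hbabs
  refine ⟨8 * C * C', by positivity, ?_⟩
  intro X k hk he hX
  obtain ⟨hsum, hbd⟩ := hB k hk he
  have hk0 : (0 : ℝ) < k := by exact_mod_cast hk
  have hX0 : (0 : ℝ) < X := by exact_mod_cast hX
  obtain ⟨hM, hMe⟩ := tsum_MU hv hl X k hk he hX hsum
  rw [sum_UU hexp hbinv X k hk he hX, sum_tsum X k hk hX, ← hMe]
  set J : ℝ := (X : ℝ) / k with hJ
  have hJ0 : 0 < J := div_pos hX0 hk0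
  have hT : Summable (fun a : ℕ => bb k a * (a * UU (J / a))) := by
    apply summable_of_ne_finset_zero (s := Icc 1 (X / k))
    intro a ha
    rw [mem_Icc, not_and_or] at ha
    rcases Nat.eq_zero_or_pos a with h0 | h0
    · rw [h0, bb_zero]; simp
    · have h1 : X / k < a := by omega
      rw [UU_eq_zero, mul_zero, mul_zero]
      have ha0 : (0 : ℝ) < a := by exact_mod_cast h0
      rw [div_lt_one ha0, hJ, div_lt_iff₀ hk0]
      have := (Nat.div_lt_iff_lt_mul (by omega : 0 < k)).mp h1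
      exact_mod_cast this
  have hdiff : |∑' a : ℕ, bb k a * (a * UU (J / a)) - ∑' a : ℕ, bb k a * (a * MU (J / a))| ≤
      C * J ^ (3 / 4 : ℝ) * ∑' n : ℕ, |bb k n| * (n : ℝ) ^ (1 / 4 : ℝ) := by
    rw [← hT.tsum_sub hM, ← tsum_mul_left]
    rw [← Real.norm_eq_abs]
    apply tsum_of_norm_bounded (hsum.mul_left (C * J ^ (3 / 4 : ℝ))).hasSum
    intro a
    rw [Real.norm_eq_abs]
    rcases Nat.eq_zero_or_pos a with h0 | h0
    · rw [h0, bb_zero]; simp
    · have ha0 : (0 : ℝ) < a := by exact_mod_cast h0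
      have h1 := hU (J / a) (by positivity)
      rw [show bb k a * (a * UU (J / a)) - bb k a * (a * MU (J / a)) =
        bb k a * (a * (UU (J / a) - MU (J / a))) by ring, abs_mul, abs_mul, abs_of_pos ha0]
      have h2 : (a : ℝ) * (C * (J / a) ^ (3 / 4 : ℝ)) = C * J ^ (3 / 4 : ℝ) * (a : ℝ) ^ (1 / 4 : ℝ) := by
        rw [Real.div_rpow hJ0.le ha0.le]
        have h3 : (a : ℝ) = (a : ℝ) ^ (3 / 4 : ℝ) * (a : ℝ) ^ (1 / 4 : ℝ) := by
          rw [← Real.rpow_add ha0]; norm_num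
        have h4 : (a : ℝ) ^ (3 / 4 : ℝ) ≠ 0 := (Real.rpow_pos_of_pos ha0 _).ne'
        have h5 : (a : ℝ) * (C * (J ^ (3 / 4 : ℝ) / (a : ℝ) ^ (3 / 4 : ℝ))) =
            ((a : ℝ) ^ (3 / 4 : ℝ) * (a : ℝ) ^ (1 / 4 : ℝ)) * (C * (J ^ (3 / 4 : ℝ) / (a : ℝ) ^ (3 / 4 : ℝ))) := by
          rw [← h3]
        rw [h5]
        field_simp
      calc |bb k a| * (a * |UU (J / a) - MU (J / a)|) ≤ |bb k a| * (a * (C * (J / a) ^ (3 / 4 : ℝ))) := by
            apply mul_le_mul_of_nonneg_left _ (abs_nonneg _)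
            exact mul_le_mul_of_nonneg_left h1 ha0.le
        _ = C * J ^ (3 / 4 : ℝ) * (|bb k a| * (a : ℝ) ^ (1 / 4 : ℝ)) := by rw [h2]; ring
  set P : ℝ := ∏ p ∈ k.primeFactors, (1 + 1 / Real.sqrt p) with hP
  have hP0 : 0 ≤ P := prod_nonneg fun p _ => by positivity
  have hRR : RR k = P * P := by
    rw [RR, hP, ← prod_mul_distrib]
    exact prod_congr rfl fun p _ => by ring
  have hJ34 : (k : ℝ) * J ^ (3 / 4 : ℝ) = X * ((k : ℝ) / X) ^ (1 / 4 : ℝ) := by
    have hu : 0 < (k : ℝ) / X := div_pos hk0 hX0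
    have h1 : J = ((k : ℝ) / X)⁻¹ := by rw [hJ, inv_div]
    have h2 : (k : ℝ) = X * ((k : ℝ) / X) := by field_simp
    rw [h1, Real.inv_rpow hu.le, ← Real.rpow_neg hu.le]
    have h3 : (k : ℝ) / X * ((k : ℝ) / X) ^ (-(3 / 4 : ℝ)) = ((k : ℝ) / X) ^ (1 / 4 : ℝ) := by
      nth_rewrite 1 [← Real.rpow_one ((k : ℝ) / X)]
      rw [← Real.rpow_add hu]
      norm_num
    rw [← h3]
    field_simp
  have hJp : 0 ≤ J ^ (3 / 4 : ℝ) := (Real.rpow_pos_of_pos hJ0 _).le
  rw [show 2 * (k * (sing k * ∑' a : ℕ, bb k a * (a * UU (J / a)))) -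
    2 * (k * (sing k * ∑' a : ℕ, bb k a * (a * MU (J / a)))) =
    (2 * (k * sing k)) * (∑' a : ℕ, bb k a * (a * UU (J / a)) - ∑' a : ℕ, bb k a * (a * MU (J / a))) by ring,
    abs_mul, abs_of_nonneg (mul_nonneg (by norm_num) (mul_nonneg hk0.le (sing_nonneg k)))]
  calc 2 * (k * sing k) * |∑' a : ℕ, bb k a * (a * UU (J / a)) - ∑' a : ℕ, bb k a * (a * MU (J / a))|
      ≤ 2 * (k * sing k) * (C * J ^ (3 / 4 : ℝ) * ∑' n : ℕ, |bb k n| * (n : ℝ) ^ (1 / 4 : ℝ)) :=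
        mul_le_mul_of_nonneg_left hdiff (mul_nonneg (by norm_num) (mul_nonneg hk0.le (sing_nonneg k)))
    _ ≤ 2 * (k * (4 * P)) * (C * J ^ (3 / 4 : ℝ) * (C' * P)) := by
        apply mul_le_mul
        · exact mul_le_mul_of_nonneg_left (mul_le_mul_of_nonneg_left (sing_le k) hk0.le) (by norm_num)
        · apply mul_le_mul_of_nonneg_left _ (by positivity)
          exact le_trans hbd (mul_le_mul_of_nonneg_left (prod34 k) hC'.le)
        · apply mul_nonneg (by positivity)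
          exact tsum_nonneg fun n => by positivity
        · positivity
    _ = 8 * C * C' * (k * J ^ (3 / 4 : ℝ)) * (P * P) := by ring
    _ = 8 * C * C' * X * RR k * ((k : ℝ) / X) ^ (1 / 4 : ℝ) := by
        rw [hJ34, hRR]; ring

end Pool.Agent.P8H61.FG
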