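import Pool.Agent.P8H15.FG.Stm2

set_option autoImplicit false

namespace Pool.Agent.P8H61.FG

open Finset ArithmeticFunction
open Pool.Agent.P8H15.FG
open Pool.Agent.H560R3.GB (sing C₂)

lemma bb_zero (k : ℕ) : bb k 0 = 0 := by simp [bb]

/-- rearrangement of a convolution sum -/
lemma conv (b s g : ℕ → ℝ) (M : ℕ) :
    ∑ j ∈ Icc 1 M, (∑ q ∈ j.divisorsAntidiagonal, b q.1 * s q.2) * g j =
      ∑ a ∈ Icc 1 M, b a * ∑ m ∈ Icc 1 (M / a), s m * g (a * m) := by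
  have h1 : ∀ j ∈ Icc 1 M, (∑ q ∈ j.divisorsAntidiagonal, b q.1 * s q.2) * g j =
      ∑ q ∈ (Icc 1 M ×ˢ Icc 1 M).filter (fun q => q.1 * q.2 = j), b q.1 * (s q.2 * g (q.1 * q.2)) := by
    intro j hj
    rw [mem_Icc] at hj
    rw [Finset.sum_mul]
    have he : j.divisorsAntidiagonal = (Icc 1 M ×ˢ Icc 1 M).filter (fun q => q.1 * q.2 = j) := by
      ext q
      rw [Nat.mem_divisorsAntidiagonal, mem_filter, mem_product, mem_Icc, mem_Icc]
      constructor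
      · rintro ⟨h, h0⟩
        have hq1 : q.1 ≠ 0 := by rintro h1; rw [h1, zero_mul] at h; omega
        have hq2 : q.2 ≠ 0 := by rintro h1; rw [h1, mul_zero] at h; omega
        have h3 : q.1 ≤ q.1 * q.2 := Nat.le_mul_of_pos_right _ (by omega)
        have h4 : q.2 ≤ q.1 * q.2 := Nat.le_mul_of_pos_left _ (by omega)
        exact ⟨⟨⟨by omega, by omega⟩, ⟨by omega, by omega⟩⟩, h⟩
      · rintro ⟨_, h⟩
        exact ⟨h, by omega⟩
    rw [he]
    apply sum_congr rfl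
    intro q hq
    rw [mem_filter] at hq
    rw [hq.2]
    ring
  rw [sum_congr rfl h1]
  simp_rw [sum_filter]
  rw [sum_comm]
  have h2 : ∀ q ∈ Icc 1 M ×ˢ Icc 1 M,
      (∑ j ∈ Icc 1 M, if q.1 * q.2 = j then b q.1 * (s q.2 * g (q.1 * q.2)) else 0) =
        if q.1 * q.2 ≤ M then b q.1 * (s q.2 * g (q.1 * q.2)) else 0 := by
    intro q hq
    rw [mem_product, mem_Icc, mem_Icc] at hq
    rw [Finset.sum_ite_eq]
    have : 1 ≤ q.1 * q.2 := Nat.one_le_iff_ne_zero.mpr (Nat.mul_ne_zero (by omega) (by omega))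
    by_cases h : q.1 * q.2 ≤ M
    · rw [if_pos h, if_pos (by rw [mem_Icc]; exact ⟨this, h⟩)]
    · rw [if_neg h, if_neg (by rw [mem_Icc]; exact fun h' => h h'.2)]
  rw [sum_congr rfl h2, sum_product]
  apply sum_congr rfl
  intro a ha
  rw [mem_Icc] at ha
  rw [mul_sum]
  rw [← sum_filter]
  have he : (Icc 1 M).filter (fun m => a * m ≤ M) = Icc 1 (M / a) := by
    ext m
    rw [mem_filter, mem_Icc, mem_Icc, Nat.le_div_iff_mul_le (by omega), mul_comm m a]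
    constructor
    · rintro ⟨h, h'⟩; exact ⟨h.1, h'⟩
    · rintro ⟨h, h'⟩
      exact ⟨⟨h, le_trans (Nat.le_mul_of_pos_left _ (by omega)) h'⟩, h'⟩
  exact he ▸ rfl

/-- the sum over `j` in terms of `UU` -/
lemma sum_UU (hexp : S_EXP) (hbinv : S_BINV) (X k : ℕ) (hk : 1 ≤ k) (he : Even k) (hX : 1 ≤ X) :
    ∑ j ∈ Icc 1 (X / k), sing (j * k) * ((X : ℝ) - j * k) =
      k * (sing k * ∑ a ∈ Icc 1 (X / k), bb k a * (a * UU ((X : ℝ) / k / a))) := by
  have hk0 : (0 : ℝ) < k := by exact_mod_cast hk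
  have h1 : ∀ j ∈ Icc 1 (X / k), sing (j * k) * ((X : ℝ) - j * k) = k * (sing k *
      ((∑ q ∈ j.divisorsAntidiagonal, bb k q.1 * sg1 q.2) * ((X : ℝ) / k - j))) := by
    intro j hj
    rw [mem_Icc] at hj
    rw [hexp j k hj.1 hk he, hbinv k j hk he hj.1]
    field_simp
  rw [sum_congr rfl h1, ← mul_sum, ← mul_sum]
  rw [conv (bb k) sg1 (fun j => (X : ℝ) / k - j) (X / k)]
  congr 2
  apply sum_congr rfl
  intro a ha
  rw [mem_Icc] at ha
  have ha0 : (0 : ℝ) < a := by exact_mod_cast ha.1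
  congr 1
  rw [UU]
  have hfl : ⌊(X : ℝ) / k / a⌋₊ = X / k / a := by
    rw [Nat.floor_div_natCast, Nat.floor_div_natCast, Nat.floor_natCast]
  rw [hfl, mul_sum]
  apply sum_congr rfl
  intro m _
  push_cast
  field_simp

/-- `UU` vanishes below `1` -/
lemma UU_eq_zero (y : ℝ) (hy : y < 1) : UU y = 0 := by
  rw [UU]
  have : ⌊y⌋₊ = 0 := by
    rw [Nat.floor_eq_zero]; exact hy
  rw [this]
  simp

/-- as an infinite sum -/
lemma sum_tsum (X k : ℕ) (hk : 1 ≤ k) (hX : 1 ≤ X) :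
    ∑ a ∈ Icc 1 (X / k), bb k a * (a * UU ((X : ℝ) / k / a)) =
      ∑' a : ℕ, bb k a * (a * UU ((X : ℝ) / k / a)) := by
  have hk0 : (0 : ℝ) < k := by exact_mod_cast hk
  rw [tsum_eq_sum]
  intro a ha
  rw [mem_Icc, not_and_or] at ha
  rcases Nat.eq_zero_or_pos a with h0 | h0
  · rw [h0, bb_zero]; simp
  · have h1 : X / k < a := by omega
    rw [UU_eq_zero, mul_zero, mul_zero]
    have ha0 : (0 : ℝ) < a := by exact_mod_cast h0
    rw [div_lt_one ha0, div_lt_iff₀ hk0]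
    have := (Nat.div_lt_iff_lt_mul (by omega : 0 < k)).mp h1
    exact_mod_cast this

/-- `a · MU(J/a)` -/
lemma MU_eq (J a : ℝ) (hJ : 0 < J) (ha : 0 < a) :
    a * MU (J / a) = Real.pi ^ 2 / 12 * J ^ 2 * (1 / a) -
      J / 2 * (Real.log J + Real.eulerMascheroniConstant + Real.log (2 * Real.pi) - 1) + J / 2 * Real.log a := by
  rw [MU, Real.log_div hJ.ne' ha.ne']
  field_simp
  ring

end Pool.Agent.P8H61.FG
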